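import Pool.Agent.TD.Fin3
import Pool.Agent.KTS.AGF

/-!
MP_e511d7_ag: all geometric fibres of a smooth projective family with one smooth projective toric
geometric fibre are rational.
Definitions of the statement: `Pool/Agent/TD/Defs.lean`.
-/

open CategoryTheory Limits AlgebraicGeometry TopologicalSpace TOD

universe u

namespace Pool.Agent.Results.MP_e511d7_ag.RationalToricDeformations

/-- Let `k` be a field of characteristic zero, `S` an irreducible scheme, locally of finite type over
`k`, and `π : X ⟶ S` a smooth projective morphism, some geometric fibre of which is a smooth projective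
toric variety. Then every geometric fibre of `π` is rational. -/
theorem result {k : Type u} [Field k] [CharZero k] {S X : Scheme.{u}} [IrreducibleSpace S]
    (p : S ⟶ Spec (.of k)) [LocallyOfFiniteType p]
    (π : X ⟶ S) [Smooth π] (hπ : IsProjective π)
    (K₀ : Type u) [Field K₀] [IsAlgClosed K₀] (s₀ : Spec (.of K₀) ⟶ S)
    (h₀ : IsSmoothProjectiveToric (pullback.snd π s₀))
    (K : Type u) [Field K] [IsAlgClosed K] (s : Spec (.of K) ⟶ S) :
    IsRational (pullback.snd π s) := by
  obtain ⟨U, -, -, hU⟩ := final_all p π hπ
  exact (hU K₀ s₀ h₀).2 KTS.bridge K s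

end Pool.Agent.Results.MP_e511d7_ag.RationalToricDeformations
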